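import Pool.Agent.LibMCN35.Ctx

set_option autoImplicit false

/-! MP_ed98ad_ag, block CN (helper35): assembly of the identities `∑ c_i N(η_i) = s W + s^2 V`. -/

namespace Pool.Agent.LibMCN35

open Pool.Agent.Mond61

/-- `∑_{i < n} f i` -/
noncomputable def sumEx (D : ℕ) (f : ℕ → Ex) (n : ℕ) : Ex :=
  Nat.rec (motive := fun _ => Ex) (.lit D 0 0 0) (fun i ih => .add (f i) ih) n

theorem sumEx_ev (s ws : List ℕ) (cb : ℕ) {A : Type*} [CommSemiring A] (x : ℕ → A) (D : ℕ) (f : ℕ → Ex) (n : ℕ) :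
    (sumEx D f n).ev s ws cb x = ∑ i ∈ Finset.range n, (f i).ev s ws cb x := by
  induction n with
  | zero =>
    rw [Finset.range_zero, Finset.sum_empty]
    exact ev_zero s ws cb x D
  | succ n ih =>
    have e : sumEx D f (n + 1) = .add (f n) (sumEx D f n) := rfl
    rw [Finset.sum_range_succ, ← ih, e, Ex.ev_add, add_comm]

/-- the weights of the digits `Y1, .., Y4, v1, .., v9` -/
noncomputable def om (i : ℕ) : ℕ := Bool.rec (motive := fun _ => ℕ) (nat_lit 1) (nat_lit 2) (Nat.blt i (nat_lit 4))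

/-- the digits `Y1, .., Y4, -v1, v2, .., -v5, .., v9` of the flag as expressions in `u1..u6, Y1..Y4, s` -/
def sg (i : ℕ) : Ex :=
  [.v 6, .v 7, .v 8, .v 9, .v 0, .v 1, .add (.v 0) (.v 10), .v 2, .v 1,
    .add (.add (.mul 0 (.c 3) (.v 2)) (.mul 0 (.c 2) (.v 3))) (.v 10), .v 3, .v 4, .v 5].getD i (.c 0)

/-- the same for `s = 0` -/
def sg0 (i : ℕ) : Ex :=
  [.v 6, .v 7, .v 8, .v 9, .v 0, .v 1, .v 0, .v 2, .v 1,
    .add (.mul 0 (.c 3) (.v 2)) (.mul 0 (.c 2) (.v 3)), .v 3, .v 4, .v 5].getD i (.c 0)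

/-- the digits `Y1, .., Y4, u1, .., u6` -/
def sw (i : ℕ) : Ex := [.v 6, .v 7, .v 8, .v 9, .v 0, .v 1, .v 2, .v 3, .v 4, .v 5].getD i (.c 0)

section

variable {A : Type*} [CommRing A]

/-- the point `(Y, v(u, s))` made of `x = (u, Y, s)` -/
def pt (x : ℕ → A) (i : ℕ) : A :=
  [x 6, x 7, x 8, x 9, - x 0, x 1, x 0 + x 10, x 2, - x 1, 3 * x 2 + 2 * x 3 + x 10, x 3, x 4, x 5].getD i 0

/-- the point `(Y, v(u, 0))` -/
def pt0 (x : ℕ → A) (i : ℕ) : A :=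
  [x 6, x 7, x 8, x 9, - x 0, x 1, x 0, x 2, - x 1, 3 * x 2 + 2 * x 3, x 3, x 4, x 5].getD i 0

/-- the point `(Y, u)` -/
def ptw (x : ℕ → A) (i : ℕ) : A := [x 6, x 7, x 8, x 9, x 0, x 1, x 2, x 3, x 4, x 5].getD i 0

theorem pt_sg (cb : ℕ) (x : ℕ → A) (i : ℕ) :
    pt x i = if i = 4 ∨ i = 8 then - (sg i).ev Qs Qw cb x else (sg i).ev Qs Qw cb x := by
  have hv : ∀ j, j < 11 → (Ex.v j).ev Qs Qw cb x = x j := fun j hj => Ex.ev_v _ _ _ _ _ hj
  rcases lt_or_ge i 13 with h | h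
  · interval_cases i
    all_goals simp only [pt, sg, List.getD_cons_zero, List.getD_cons_succ, Ex.ev_add, Ex.ev_mul, Ex.ev_c, hv, Nat.cast_ofNat]
    all_goals norm_num [hv]
  · have e1 : pt x i = 0 := List.getD_eq_default _ _ h
    have e2 : sg i = .c 0 := List.getD_eq_default _ _ h
    rw [e1, e2, Ex.ev_c, Nat.cast_zero, neg_zero, ite_self]

theorem pt0_sg0 (cb : ℕ) (x : ℕ → A) (i : ℕ) :
    pt0 x i = if i = 4 ∨ i = 8 then - (sg0 i).ev Qs Qw cb x else (sg0 i).ev Qs Qw cb x := by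
  have hv : ∀ j, j < 11 → (Ex.v j).ev Qs Qw cb x = x j := fun j hj => Ex.ev_v _ _ _ _ _ hj
  rcases lt_or_ge i 13 with h | h
  · interval_cases i
    all_goals simp only [pt0, sg0, List.getD_cons_zero, List.getD_cons_succ, Ex.ev_add, Ex.ev_mul, Ex.ev_c, hv, Nat.cast_ofNat]
    all_goals norm_num [hv]
  · have e1 : pt0 x i = 0 := List.getD_eq_default _ _ h
    have e2 : sg0 i = .c 0 := List.getD_eq_default _ _ h
    rw [e1, e2, Ex.ev_c, Nat.cast_zero, neg_zero, ite_self]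

theorem ptw_sw (cb : ℕ) (x : ℕ → A) (i : ℕ) : ptw x i = (sw i).ev Qs Qw cb x := by
  have hv : ∀ j, j < 11 → (Ex.v j).ev Qs Qw cb x = x j := fun j hj => Ex.ev_v _ _ _ _ _ hj
  rcases lt_or_ge i 10 with h | h
  · interval_cases i
    all_goals simp only [ptw, sw, List.getD_cons_zero, List.getD_cons_succ]
    all_goals norm_num [hv]
  · have e1 : ptw x i = 0 := List.getD_eq_default _ _ h
    have e2 : sw i = .c 0 := List.getD_eq_default _ _ h
    rw [e1, e2, Ex.ev_c, Nat.cast_zero]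

end

/-- positive and negative part of a polynomial `pos - neg` at the flag -/
noncomputable def PE (σ : ℕ → Ex) (D : ℕ) (pos neg : List (List ℕ × ℕ)) : Ex := .add (lx om σ D (spl false pos)) (lx om σ D (spl true neg))
noncomputable def NE (σ : ℕ → Ex) (D : ℕ) (pos neg : List (List ℕ × ℕ)) : Ex := .add (lx om σ D (spl true pos)) (lx om σ D (spl false neg))

theorem PN (cb : ℕ) {A : Type*} [CommRing A] (x : ℕ → A) (D : ℕ) (pos neg : List (List ℕ × ℕ)) :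
    pvL (pt x) pos - pvL (pt x) neg = (PE sg D pos neg).ev Qs Qw cb x - (NE sg D pos neg).ev Qs Qw cb x := by
  rw [pvL_spl (pt x) _ (pt_sg cb x) pos, pvL_spl (pt x) _ (pt_sg cb x) neg]
  unfold PE NE
  rw [Ex.ev_add, Ex.ev_add, lx_ev, lx_ev, lx_ev, lx_ev]
  ring

theorem PN0 (cb : ℕ) {A : Type*} [CommRing A] (x : ℕ → A) (D : ℕ) (pos neg : List (List ℕ × ℕ)) :
    pvL (pt0 x) pos - pvL (pt0 x) neg = (PE sg0 D pos neg).ev Qs Qw cb x - (NE sg0 D pos neg).ev Qs Qw cb x := by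
  rw [pvL_spl (pt0 x) _ (pt0_sg0 cb x) pos, pvL_spl (pt0 x) _ (pt0_sg0 cb x) neg]
  unfold PE NE
  rw [Ex.ev_add, Ex.ev_add, lx_ev, lx_ev, lx_ev, lx_ev]
  ring

end Pool.Agent.LibMCN35
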