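import Pool.Agent.LibMCN35.CNb

set_option autoImplicit false

namespace Pool.Agent.LibMCN35

open Pool.Agent Pool.Agent.Mond61

/-- weight of `alpha_i` -/
noncomputable def da (i : ℕ) : ℕ := Bool.rec (motive := fun _ => ℕ) (nat_lit 2) (nat_lit 1) (Nat.blt i (nat_lit 14))

noncomputable def pa (i : ℕ) : Ex := PE sg0 (da i) (aP i) (aN i)
noncomputable def na (i : ℕ) : Ex := NE sg0 (da i) (aP i) (aN i)

theorem chka : eqChk Qs Qw QV 48 24 5 (LHS pa na (lx ow sw 5 Mond61F.lAm) 5) (LHS na pa (lx ow sw 5 Mond61F.lAp) 5) = true := by decide +kernel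

/-- (CA) -/
theorem CA {A : Type*} [CommRing A] (x : ℕ → A) :
    ∑ i ∈ Finset.range 20, cv x i * (pvL (pt0 x) (aP i) - pvL (pt0 x) (aN i)) = pvL (ptw x) Mond61F.lAp - pvL (ptw x) Mond61F.lAm := by
  have h := assemble x pa na _ _ 5 chka
  have e : ∀ i, pvL (pt0 x) (aP i) - pvL (pt0 x) (aN i) = (pa i).ev Qs Qw 24 x - (na i).ev Qs Qw 24 x := fun i => PN0 24 x (da i) _ _
  have e2 : ∀ W : List (List ℕ × ℕ), (lx ow sw 5 W).ev Qs Qw 24 x = pvL (ptw x) W := by
    intro W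
    rw [lx_ev]
    congr 1
    funext i
    exact (ptw_sw 24 x i).symm
  rw [e2, e2] at h
  simp only [e]
  exact h

end Pool.Agent.LibMCN35
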