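import Pool.Agent.LibMCN35.CNb

set_option autoImplicit false

namespace Pool.Agent.LibMCN35

open Pool.Agent Pool.Agent.Mond61

theorem chk0 : eqChk Qs Qw QV 48 24 6 (LHS p0 n0 (RX Mond61F.lW0m VN0) 6) (LHS n0 p0 (RX Mond61F.lW0p VP0) 6) = true := by decide +kernel

/-- (CN0) -/
theorem CN0 {A : Type*} [CommRing A] (x : ℕ → A) :
    ∑ i ∈ Finset.range 20, cv x i * (ec x i 4 + ec x i 6) =
      x 10 * (pvL (ptw x) Mond61F.lW0p - pvL (ptw x) Mond61F.lW0m) + x 10 ^ 2 * (VP0.ev Qs Qw 24 x - VN0.ev Qs Qw 24 x) := by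
  have h := assemble x p0 n0 _ _ 6 chk0
  rw [RX_ev, RX_ev] at h
  simp only [q0 x] at h
  rw [h]
  ring

end Pool.Agent.LibMCN35
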