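import Pool.Agent.LibMCN35.CNb

set_option autoImplicit false

namespace Pool.Agent.LibMCN35

open Pool.Agent Pool.Agent.Mond61

theorem chk1 : eqChk Qs Qw QV 48 24 6 (LHS p1 n1 (RX Mond61F.lW1m VN1) 6) (LHS n1 p1 (RX Mond61F.lW1p VP1) 6) = true := by decide +kernel

/-- (CN1) -/
theorem CN1 {A : Type*} [CommRing A] (x : ℕ → A) :
    ∑ i ∈ Finset.range 20, cv x i * (ec x i 5 + ec x i 8) =
      x 10 * (pvL (ptw x) Mond61F.lW1p - pvL (ptw x) Mond61F.lW1m) + x 10 ^ 2 * (VP1.ev Qs Qw 24 x - VN1.ev Qs Qw 24 x) := by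
  have h := assemble x p1 n1 _ _ 6 chk1
  rw [RX_ev, RX_ev] at h
  simp only [q1 x] at h
  rw [h]
  ring

end Pool.Agent.LibMCN35
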