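import Pool.Agent.LibMCN35.CNb

set_option autoImplicit false

namespace Pool.Agent.LibMCN35

open Pool.Agent Pool.Agent.Mond61

theorem chk2 : eqChk Qs Qw QV 48 24 6 (LHS p2 n2 (RX Mond61F.lW2m VN2) 6) (LHS n2 p2 (RX Mond61F.lW2p VP2) 6) = true := by decide +kernel

/-- (CN2) -/
theorem CN2 {A : Type*} [CommRing A] (x : ℕ → A) :
    ∑ i ∈ Finset.range 20, cv x i * (ec x i 9 - 3 * ec x i 7 - 2 * ec x i 10) =
      x 10 * (pvL (ptw x) Mond61F.lW2p - pvL (ptw x) Mond61F.lW2m) + x 10 ^ 2 * (VP2.ev Qs Qw 24 x - VN2.ev Qs Qw 24 x) := by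
  have h := assemble x p2 n2 _ _ 6 chk2
  rw [RX_ev, RX_ev] at h
  simp only [q2 x] at h
  rw [h]
  ring

end Pool.Agent.LibMCN35
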