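import Pool.Agent.LibMCN35.Data

set_option autoImplicit false

/-! MP_ed98ad_ag, block CN (helper35): the general form of the identities, for term lists `eP i t`, `eN i t` (field `i`, component `t`). -/

namespace Pool.Agent.LibMCN35

open Pool.Agent.Mond61

/-- weight of `c_i` -/
noncomputable def dc (i : ℕ) : ℕ := Bool.rec (motive := fun _ => ℕ) (nat_lit 3) (nat_lit 4) (Nat.blt i (nat_lit 14))

/-- weight of the components `v` of the field `i` -/
noncomputable def de (i : ℕ) : ℕ := Bool.rec (motive := fun _ => ℕ) (nat_lit 3) (nat_lit 2) (Nat.blt i (nat_lit 14))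

/-- the two sides: `(cP - cN) (p - n)` summed, plus the right side -/
noncomputable def LHS (p n : ℕ → Ex) (rest : Ex) (D : ℕ) : Ex :=
  .add (sumEx D (fun i => .add (.mul (dc i) (cP i) (p i)) (.mul (dc i) (cN i) (n i))) 20) rest

/-- `c_i` in a ring, at the point `x = (u, Y, ..)` -/
noncomputable def cv {A : Type*} [CommRing A] (x : ℕ → A) (i : ℕ) : A := (cP i).ev Ps Pw 24 x - (cN i).ev Ps Pw 24 x

theorem map_cv {A B : Type*} [CommRing A] [CommRing B] (φ : A →+* B) (x : ℕ → A) (i : ℕ) : φ (cv x i) = cv (fun j => φ (x j)) i := by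
  unfold cv
  rw [map_sub, map_ev, map_ev]

/-- all literals of the `c_i` are valid over P -/
noncomputable def cchk (n : ℕ) : Bool :=
  Nat.rec (motive := fun _ => Bool) true (fun i ih => and (and ((cP i).hom Ps Pw PV 24 (dc i)) ((cN i).hom Ps Pw PV 24 (dc i))) ih) n

theorem cchk20 : cchk 20 = true := by decide +kernel

theorem cchk_spec (n : ℕ) (h : cchk n = true) : ∀ i < n, (cP i).hom Ps Pw PV 24 (dc i) = true ∧ (cN i).hom Ps Pw PV 24 (dc i) = true := by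
  induction n with
  | zero => intro i hi; omega
  | succ n ih =>
    have h' : and (and ((cP n).hom Ps Pw PV 24 (dc n)) ((cN n).hom Ps Pw PV 24 (dc n))) (cchk n) = true := h
    rw [Bool.and_eq_true, Bool.and_eq_true] at h'
    intro i hi
    rcases Nat.lt_succ_iff_lt_or_eq.1 hi with hi | rfl
    · exact ih h'.2 i hi
    · exact h'.1

theorem cP_Q {A : Type*} [CommRing A] (x : ℕ → A) (i : ℕ) (hi : i < 20) : (cP i).ev Qs Qw 24 x = (cP i).ev Ps Pw 24 x :=
  Q_pre 24 x _ (dc i) (cchk_spec 20 cchk20 i hi).1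

theorem cN_Q {A : Type*} [CommRing A] (x : ℕ → A) (i : ℕ) (hi : i < 20) : (cN i).ev Qs Qw 24 x = (cN i).ev Ps Pw 24 x :=
  Q_pre 24 x _ (dc i) (cchk_spec 20 cchk20 i hi).2

theorem assemble {A : Type*} [CommRing A] (x : ℕ → A) (p n : ℕ → Ex) (r r' : Ex) (D : ℕ)
    (h : eqChk Qs Qw QV 48 24 D (LHS p n r D) (LHS n p r' D) = true) :
    ∑ i ∈ Finset.range 20, cv x i * ((p i).ev Qs Qw 24 x - (n i).ev Qs Qw 24 x) = r'.ev Qs Qw 24 x - r.ev Qs Qw 24 x := by
  have h1 := eqChk_ev Qs Qw QV 48 24 D _ _ Qok h x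
  unfold LHS at h1
  rw [Ex.ev_add, Ex.ev_add, sumEx_ev, sumEx_ev] at h1
  have e1 : ∀ a b : ℕ → Ex, ∑ i ∈ Finset.range 20, (Ex.add (.mul (dc i) (cP i) (a i)) (.mul (dc i) (cN i) (b i))).ev Qs Qw 24 x =
      ∑ i ∈ Finset.range 20, ((cP i).ev Ps Pw 24 x * (a i).ev Qs Qw 24 x + (cN i).ev Ps Pw 24 x * (b i).ev Qs Qw 24 x) := by
    intro a b
    refine Finset.sum_congr rfl fun i hi => ?_
    rw [Ex.ev_add, Ex.ev_mul, Ex.ev_mul, cP_Q x i (Finset.mem_range.1 hi), cN_Q x i (Finset.mem_range.1 hi)]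
  rw [e1, e1] at h1
  have e2 : ∑ i ∈ Finset.range 20, cv x i * ((p i).ev Qs Qw 24 x - (n i).ev Qs Qw 24 x) =
      ∑ i ∈ Finset.range 20, ((cP i).ev Ps Pw 24 x * (p i).ev Qs Qw 24 x + (cN i).ev Ps Pw 24 x * (n i).ev Qs Qw 24 x) -
      ∑ i ∈ Finset.range 20, ((cP i).ev Ps Pw 24 x * (n i).ev Qs Qw 24 x + (cN i).ev Ps Pw 24 x * (p i).ev Qs Qw 24 x) := by
    rw [← Finset.sum_sub_distrib]
    refine Finset.sum_congr rfl fun i _ => ?_
    unfold cv
    ring
  rw [e2]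
  linear_combination h1

/-- the weights of the digits `Y1, .., Y4, u1, .., u6` -/
noncomputable def ow (i : ℕ) : ℕ := Bool.rec (motive := fun _ => ℕ) (nat_lit 1) (nat_lit 2) (Nat.blt i (nat_lit 4))

/-- `s W + s^2 V` -/
noncomputable def RX (W : List (List ℕ × ℕ)) (V : Ex) : Ex :=
  .add (.mul 1 (.v 10) (lx ow sw 5 W)) (.mul 2 (.mul 1 (.v 10) (.v 10)) V)

theorem RX_ev {A : Type*} [CommRing A] (x : ℕ → A) (W : List (List ℕ × ℕ)) (V : Ex) :
    (RX W V).ev Qs Qw 24 x = x 10 * pvL (ptw x) W + x 10 ^ 2 * V.ev Qs Qw 24 x := by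
  unfold RX
  have e : (Ex.v 10).ev Qs Qw 24 x = x 10 := Ex.ev_v _ _ _ _ _ (by decide)
  rw [Ex.ev_add, Ex.ev_mul, Ex.ev_mul, Ex.ev_mul, e, lx_ev, pow_two]
  congr 3
  funext i
  exact (ptw_sw 24 x i).symm

end Pool.Agent.LibMCN35
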