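import Pool.Agent.LibMCN35.AS
import Pool.Agent.LibMV18.Main

set_option autoImplicit false

/-! MP_ed98ad_ag, block CN (helper35): the coefficients of the fields (packed numbers of `LibMV18`) as lists of terms; digits `Y1..Y4 = 0..3`,
`v1..v9 = 4..12`. -/

namespace Pool.Agent.LibMCN35

open Pool.Agent.Mond61 Pool.Agent.LibMV18

/-- the digit of a variable of `LibMV18` -/
def dig (d : ℕ) : ℕ := cond (Nat.blt d 9) (Nat.add d 4) (Nat.sub d 9)

/-- digits of a term code -/
def dgs (c : ℕ) : List ℕ := ([td c 0, td c 1, td c 2, td c 3, td c 4].filter fun d => Nat.blt d 13).map dig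

/-- terms of a packed polynomial -/
def tls (N : ℕ) : List (List ℕ × ℕ) := (tl N).map fun c => (dgs c, tk c)

/-- the 20 fields -/
def efs : List (List (ℕ × ℕ)) :=
  [et0, et1, et2, et3, et4, et5, et6, et7, et8, et9, et10, et11, et12, et13, et14, et15, et16, et17, et18, et19]

/-- the 20 factors -/
def afs : List (ℕ × ℕ) :=
  [al0, al1, al2, al3, al4, al5, al6, al7, al8, al9, al10, al11, al12, al13, al14, al15, al16, al17, al18, al19]

/-- number of a variable in `LibMV18` -/
def gid (t : ℕ) : ℕ := cond (Nat.blt t 4) (Nat.add t 9) (Nat.sub t 4)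

def eP (i t : ℕ) : List (List ℕ × ℕ) := tls ((efs.getD i []).getD (gid t) (0, 0)).1
def eN (i t : ℕ) : List (List ℕ × ℕ) := tls ((efs.getD i []).getD (gid t) (0, 0)).2
def aP (i : ℕ) : List (List ℕ × ℕ) := tls (afs.getD i (0, 0)).1
def aN (i : ℕ) : List (List ℕ × ℕ) := tls (afs.getD i (0, 0)).2

/-- value of a term code -/
theorem tv_dgs {A : Type*} [CommSemiring A] (y : ℕ → A) (c : ℕ) : tv (fun d => y (dig d)) c = (tk c : A) * ((dgs c).map y).prod := by
  have h : ∀ l : List ℕ, (((l.filter fun d => Nat.blt d 13).map dig).map y).prod = (l.map (gx fun d => y (dig d))).prod := by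
    intro l
    induction l with
    | nil => rfl
    | cons d l ih =>
      by_cases h : d < 13
      · have e : Nat.blt d 13 = true := by simpa [Nat.blt_eq] using h
        rw [List.filter_cons_of_pos (by simpa using e), List.map_cons, List.map_cons, List.map_cons, List.prod_cons, List.prod_cons, ih]
        unfold gx
        rw [if_pos h]
      · have e : Nat.blt d 13 = false := by
          rw [Bool.eq_false_iff]
          intro hh
          exact h (by simpa [Nat.blt_eq] using hh)
        rw [List.filter_cons_of_neg (by simp [e]), List.map_cons, List.prod_cons, ih]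
        unfold gx
        rw [if_neg h, one_mul]
  unfold dgs
  rw [h]
  unfold tv
  simp only [List.map_cons, List.map_nil, List.prod_cons, List.prod_nil]
  ring

theorem pv_tls {A : Type*} [CommSemiring A] (y : ℕ → A) (N : ℕ) : pv (fun d => y (dig d)) N = pvL y (tls N) := by
  rw [pv_eq_lv]
  unfold lv pvL tls
  rw [List.map_map]
  congr 1
  refine List.map_congr_left fun c _ => ?_
  exact tv_dgs y c

theorem sv_tls {A : Type*} [CommRing A] (y : ℕ → A) (X : ℕ × ℕ) : sv (fun d => y (dig d)) X = pvL y (tls X.1) - pvL y (tls X.2) := by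
  unfold sv
  rw [pv_tls, pv_tls]

theorem efs_eq (i : Fin 20) : efs.getD i [] = (flds i).et := by
  fin_cases i <;> rfl

theorem afs_eq (i : Fin 20) : afs.getD i (0, 0) = (flds i).al := by
  fin_cases i <;> rfl

theorem gid_eq (t : Fin 13) : gid t = toI t := by
  fin_cases t <;> rfl

/-- component `t` of the field `i` at a point -/
theorem sv_eta {A : Type*} [CommRing A] (y : ℕ → A) (i : Fin 20) (t : Fin 13) :
    sv (fun d => y (dig d)) (etaN i t) = pvL y (eP i t) - pvL y (eN i t) := by
  rw [sv_tls]
  unfold etaN eP eN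
  rw [efs_eq, gid_eq]

theorem sv_al {A : Type*} [CommRing A] (y : ℕ → A) (i : Fin 20) :
    sv (fun d => y (dig d)) (flds i).al = pvL y (aP i) - pvL y (aN i) := by
  rw [sv_tls]
  unfold aP aN
  rw [afs_eq]

/-- values at a point `p` -/
theorem aeval_sv {A : Type*} [CommRing A] [Algebra ℤ A] (p : Fin 13 → A) (y : ℕ → A) (hp : ∀ t : Fin 13, p t = y t) (X : ℕ × ℕ) :
    MvPolynomial.aeval p (sv xT X) = sv (fun d => y (dig d)) X := by
  have h1 : ∀ N, MvPolynomial.aeval p (pv xT N) = pv (fun d => y (dig d)) N := by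
    intro N
    have h := map_pv (MvPolynomial.aeval p : MvPolynomial (Fin 13) ℤ →ₐ[ℤ] A).toRingHom xT N
    refine h.trans ?_
    refine pv_congr (fun d hd => ?_) N
    have h2 : ∀ d : Fin 13, MvPolynomial.aeval p (xT d) = y (dig d) := by
      intro d
      have h3 : xT d = MvPolynomial.X (Fin.ofNat 13 (dig d)) := by
        fin_cases d <;> rfl
      rw [h3, MvPolynomial.aeval_X, hp]
      congr 1
      fin_cases d <;> rfl
    exact h2 ⟨d, hd⟩
  unfold sv
  rw [map_sub, h1, h1]

theorem aeval_eta {A : Type*} [CommRing A] [Algebra ℤ A] (p : Fin 13 → A) (y : ℕ → A) (hp : ∀ t : Fin 13, p t = y t) (i : Fin 20) (t : Fin 13) :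
    MvPolynomial.aeval p (etaP i t) = pvL y (eP i t) - pvL y (eN i t) := by
  unfold etaP
  rw [aeval_sv p y hp, sv_eta]

theorem aeval_al {A : Type*} [CommRing A] [Algebra ℤ A] (p : Fin 13 → A) (y : ℕ → A) (hp : ∀ t : Fin 13, p t = y t) (i : Fin 20) :
    MvPolynomial.aeval p (alphaP i) = pvL y (aP i) - pvL y (aN i) := by
  unfold alphaP
  rw [aeval_sv p y hp, sv_al]

end Pool.Agent.LibMCN35
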