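import Pool.Agent.LibMCN35.CNa
import Pool.Agent.LibMCN35.Eta

set_option autoImplicit false

/-! MP_ed98ad_ag, block CN (helper35): the normal components of the fields as expressions. -/

namespace Pool.Agent.LibMCN35

open Pool.Agent.Mond61

noncomputable def p0 (i : ℕ) : Ex := .add (PE sg (de i) (eP i 4) (eN i 4)) (PE sg (de i) (eP i 6) (eN i 6))
noncomputable def n0 (i : ℕ) : Ex := .add (NE sg (de i) (eP i 4) (eN i 4)) (NE sg (de i) (eP i 6) (eN i 6))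
noncomputable def p1 (i : ℕ) : Ex := .add (PE sg (de i) (eP i 5) (eN i 5)) (PE sg (de i) (eP i 8) (eN i 8))
noncomputable def n1 (i : ℕ) : Ex := .add (NE sg (de i) (eP i 5) (eN i 5)) (NE sg (de i) (eP i 8) (eN i 8))
noncomputable def p2 (i : ℕ) : Ex := .add (PE sg (de i) (eP i 9) (eN i 9))
  (.add (.mul 0 (.c 3) (NE sg (de i) (eP i 7) (eN i 7))) (.mul 0 (.c 2) (NE sg (de i) (eP i 10) (eN i 10))))
noncomputable def n2 (i : ℕ) : Ex := .add (NE sg (de i) (eP i 9) (eN i 9))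
  (.add (.mul 0 (.c 3) (PE sg (de i) (eP i 7) (eN i 7))) (.mul 0 (.c 2) (PE sg (de i) (eP i 10) (eN i 10))))

/-- the component `t` of the field `i` at the point `(Y, v(u, s))` -/
noncomputable def ec {A : Type*} [CommRing A] (x : ℕ → A) (i t : ℕ) : A := pvL (pt x) (eP i t) - pvL (pt x) (eN i t)

theorem ec_eq {A : Type*} [CommRing A] (x : ℕ → A) (i t D : ℕ) :
    ec x i t = (PE sg D (eP i t) (eN i t)).ev Qs Qw 24 x - (NE sg D (eP i t) (eN i t)).ev Qs Qw 24 x := PN 24 x D _ _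

theorem q0 {A : Type*} [CommRing A] (x : ℕ → A) (i : ℕ) : (p0 i).ev Qs Qw 24 x - (n0 i).ev Qs Qw 24 x = ec x i 4 + ec x i 6 := by
  rw [ec_eq x i 4 (de i), ec_eq x i 6 (de i)]
  unfold p0 n0
  rw [Ex.ev_add, Ex.ev_add]
  ring

theorem q1 {A : Type*} [CommRing A] (x : ℕ → A) (i : ℕ) : (p1 i).ev Qs Qw 24 x - (n1 i).ev Qs Qw 24 x = ec x i 5 + ec x i 8 := by
  rw [ec_eq x i 5 (de i), ec_eq x i 8 (de i)]
  unfold p1 n1
  rw [Ex.ev_add, Ex.ev_add]
  ring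

theorem q2 {A : Type*} [CommRing A] (x : ℕ → A) (i : ℕ) :
    (p2 i).ev Qs Qw 24 x - (n2 i).ev Qs Qw 24 x = ec x i 9 - 3 * ec x i 7 - 2 * ec x i 10 := by
  rw [ec_eq x i 9 (de i), ec_eq x i 7 (de i), ec_eq x i 10 (de i)]
  unfold p2 n2
  simp only [Ex.ev_add, Ex.ev_mul, Ex.ev_c, Nat.cast_ofNat]
  ring

end Pool.Agent.LibMCN35
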