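import Pool.Agent.LibMCN35.Spec
import Pool.Agent.LibGF7.Hne

set_option autoImplicit false

/-! MP_ed98ad_ag, block CN (helper35): the four hypotheses `hA, h0, h1, h2` of `R_cert` for `m = 20`, `η = etaP`, `α = alphaP`,
`A = zS k WAT`, `W_i = zS k WiT`. -/

namespace Pool.Agent.LibMCN35

open Pool.Agent Pool.Agent.LibMV18 Pool.Agent.LibMX34 Pool.Agent.LibGF7 MvPolynomial

variable (k : Type) [Field k]

theorem zS_zk (w : MvPolynomial (Fin 10) ℤ) : zS k w = zk k w := rfl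

/-- hypothesis `hA` of `R_cert` -/
theorem cert_A : ∑ i, cc k i * aeval (pO0 k TA) (alphaP i) = zS k Mond61F.WAT := by
  rw [zS_zk]
  exact hA k

/-- hypothesis `h0` of `R_cert` -/
theorem cert_0 : ∑ i, lift0 k (cc k i) * aeval (pO k TA sA) (etaP i (ivO 0) + etaP i (ivO 2)) =
    sV k * lift0 k (zS k Mond61F.W0T) + sV k ^ 2 * V0 k := by
  rw [zS_zk]
  exact h0 k

/-- hypothesis `h1` of `R_cert` -/
theorem cert_1 : ∑ i, lift0 k (cc k i) * aeval (pO k TA sA) (etaP i (ivO 1) + etaP i (ivO 4)) =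
    sV k * lift0 k (zS k Mond61F.W1T) + sV k ^ 2 * V1 k := by
  rw [zS_zk]
  exact h1 k

/-- hypothesis `h2` of `R_cert` -/
theorem cert_2 : ∑ i, lift0 k (cc k i) * aeval (pO k TA sA) (etaP i (ivO 5) - 3 * etaP i (ivO 3) - 2 * etaP i (ivO 6)) =
    sV k * lift0 k (zS k Mond61F.W2T) + sV k ^ 2 * V2 k := by
  rw [zS_zk]
  exact h2 k

end Pool.Agent.LibMCN35
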