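import Pool.Agent.LibMCN35.T

set_option autoImplicit false

/-! MP_ed98ad_ag, block CN (helper35): an expression which is valid in a context `(s, ws)` has the same value in the larger context
`(s ++ [a], ws ++ [b])`. -/

namespace Pool.Agent.LibMCN35

open Pool.Agent.Mond61 MvPolynomial

theorem pos_append (s m : List ℕ) (a e : ℕ) (h : m.length = s.length) : pos (s ++ [a]) (m ++ [e]) = pos s m + a * e := by
  induction s generalizing m with
  | nil =>
    have : m = [] := List.length_eq_zero_iff.1 (by simpa using h)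
    subst this
    change pos (a :: []) (e :: []) = pos [] [] + a * e
    rw [pos_cons_cons, pos_nil]
    ring
  | cons c s ih =>
    cases m with
    | nil => simp at h
    | cons d m =>
      change pos (c :: (s ++ [a])) (d :: (m ++ [e])) = _
      rw [pos_cons_cons, pos_cons_cons, ih m (by simpa using h)]
      ring

theorem decode_pre {s ws : List ℕ} {D V a b V' : ℕ} (h : CtxOK s ws D V) (h' : CtxOK (s ++ [a]) (ws ++ [b]) D V') {p : ℕ}
    (hp : V.testBit p = true) {A : Type*} [CommSemiring A] (x : ℕ → A) :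
    ∏ i : Fin (s ++ [a]).length, x i ^ (decode (s ++ [a]) (ws ++ [b]) D p i) = ∏ i : Fin s.length, x i ^ (decode s ws D p i) := by
  have h1 := (h.mem p).1 hp
  obtain ⟨hm, hpm⟩ := h1.choose_spec
  set m := h1.choose with hmdef
  have hdec : decode s ws D p = toFs s m := by
    unfold decode
    rw [dif_pos h1]
  have hm' := (mem_monos h.2.1).1 hm
  have hlen : m.length = s.length := by rw [hm'.1, h.1]
  have h2 : m ++ [0] ∈ monos (ws ++ [b]) D := by
    rw [mem_monos h'.2.1]
    refine ⟨by rw [List.length_append, List.length_append, hm'.1]; rfl, ?_⟩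
    rw [pos_append ws m b 0 hm'.1, hm'.2]
    ring
  have h3 : pos (s ++ [a]) (m ++ [0]) = p := by
    rw [pos_append s m a 0 hlen, hpm]
    ring
  have h4 : ∃ m' ∈ monos (ws ++ [b]) D, pos (s ++ [a]) m' = p := ⟨_, h2, h3⟩
  have hdec' : decode (s ++ [a]) (ws ++ [b]) D p = toFs (s ++ [a]) (m ++ [0]) := by
    unfold decode
    rw [dif_pos h4]
    have h5 := h4.choose_spec
    rw [h'.inj h5.1 h2 (by rw [h5.2, h3])]
  rw [hdec, hdec']
  have e1 : ∏ i : Fin s.length, x i ^ (toFs s m i) = ∏ i ∈ Finset.range s.length, x i ^ m.getD i 0 := by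
    exact Fin.prod_univ_eq_prod_range (fun i => x i ^ m.getD i 0) s.length
  have e2 : ∏ i : Fin (s ++ [a]).length, x i ^ (toFs (s ++ [a]) (m ++ [0]) i) =
      ∏ i ∈ Finset.range (s ++ [a]).length, x i ^ (m ++ [0]).getD i 0 := by
    exact Fin.prod_univ_eq_prod_range (fun i => x i ^ (m ++ [0]).getD i 0) (s ++ [a]).length
  rw [e1, e2, List.length_append, List.length_singleton, Finset.prod_range_succ]
  have e3 : (m ++ [0]).getD s.length 0 = 0 := by
    rw [List.getD_append_right _ _ _ _ (by omega), hlen, Nat.sub_self]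
    rfl
  rw [e3, pow_zero, mul_one]
  refine Finset.prod_congr rfl fun i hi => ?_
  rw [List.getD_append _ _ _ _ (by rw [hlen]; exact Finset.mem_range.1 hi)]

theorem ev_pre {s ws Vs Vs' : List ℕ} {a b : ℕ} (hV : AllOK s ws Vs) (hV' : AllOK (s ++ [a]) (ws ++ [b]) Vs')
    (hl : Vs.length ≤ Vs'.length) (cb : ℕ) {A : Type*} [CommSemiring A] (x : ℕ → A) (e : Ex) :
    ∀ D, e.hom s ws Vs cb D = true → e.ev (s ++ [a]) (ws ++ [b]) cb x = e.ev s ws cb x := by
  induction e with
  | v i =>
    intro D h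
    have h' : and (Nat.blt i s.length) (Nat.beq D (ws.getD i 0)) = true := h
    rw [Bool.and_eq_true] at h'
    have h1 : i < s.length := by simpa [Nat.blt_eq] using h'.1
    rw [Ex.ev_v _ _ _ _ _ h1, Ex.ev_v _ _ _ _ _ (by rw [List.length_append]; omega)]
  | c k =>
    intro D _
    rw [Ex.ev_c, Ex.ev_c]
  | lit D' o n N =>
    intro D h
    have h' : and (Nat.beq D' D) (and (Nat.blt D' Vs.length) (litV (Vs.getD D' 0) cb o n N)) = true := h
    rw [Bool.and_eq_true, Bool.and_eq_true] at h'
    obtain ⟨-, h2, h3⟩ := h'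
    have h2 : D' < Vs.length := by simpa [Nat.blt_eq] using h2
    unfold Ex.ev Ex.mv
    rw [eval₂_sum, eval₂_sum]
    refine Finset.sum_congr rfl fun t ht => ?_
    rw [eval₂_monomial, eval₂_monomial, Finsupp.prod_fintype _ _ (fun _ => pow_zero _), Finsupp.prod_fintype _ _ (fun _ => pow_zero _)]
    congr 1
    exact decode_pre (hV D' h2) (hV' D' (lt_of_lt_of_le h2 hl)) (litV_spec _ _ _ _ _ h3 t (Finset.mem_range.1 ht)) x
  | add p q ihp ihq =>
    intro D h
    have h' : and (p.hom s ws Vs cb D) (q.hom s ws Vs cb D) = true := h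
    rw [Bool.and_eq_true] at h'
    rw [Ex.ev_add, Ex.ev_add, ihp D h'.1, ihq D h'.2]
  | mul d p q ihp ihq =>
    intro D h
    have h' : and (Nat.ble d D) (and (p.hom s ws Vs cb d) (q.hom s ws Vs cb (D - d))) = true := h
    rw [Bool.and_eq_true, Bool.and_eq_true] at h'
    rw [Ex.ev_mul, Ex.ev_mul, ihp _ h'.2.1, ihq _ h'.2.2]

/-- values commute with ring homomorphisms -/
theorem map_ev (s ws : List ℕ) (cb : ℕ) {A B : Type*} [CommSemiring A] [CommSemiring B] (φ : A →+* B) (x : ℕ → A) (e : Ex) :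
    φ (e.ev s ws cb x) = e.ev s ws cb (fun i => φ (x i)) := by
  unfold Ex.ev
  rw [hom_eval₂]
  congr 1
  exact Subsingleton.elim _ _

end Pool.Agent.LibMCN35
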