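import Pool.Agent.LibMCN35.CN0
import Pool.Agent.LibMCN35.CN1
import Pool.Agent.LibMCN35.CN2
import Pool.Agent.LibMCN35.CA
import Pool.Agent.LibMX34.Flag

set_option autoImplicit false

/-! MP_ed98ad_ag, block CN (helper35): the identities (CN0), (CN1), (CN2), (CA) in `k[[s]][[Y, u]]`. -/

namespace Pool.Agent.LibMCN35

open Pool.Agent Pool.Agent.Mond61 Pool.Agent.LibMV18 Pool.Agent.LibMX34 MvPolynomial

theorem ev_congr (s ws : List ℕ) (cb : ℕ) {A : Type*} [CommSemiring A] {x y : ℕ → A} (h : ∀ i < s.length, x i = y i) (e : Ex) :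
    e.ev s ws cb x = e.ev s ws cb y := by
  have h2 : (fun i : Fin s.length => x i) = fun i : Fin s.length => y i := funext fun i => h i i.2
  unfold Ex.ev
  rw [h2]

theorem cv_congr {A : Type*} [CommRing A] {x y : ℕ → A} (h : ∀ i < 10, x i = y i) (i : ℕ) : cv x i = cv y i := by
  unfold cv
  rw [ev_congr Ps Pw 24 h, ev_congr Ps Pw 24 h]

section

variable (k : Type) [Field k]

/-- the point `(u, Y)` of `k[[Y, u]]` -/
noncomputable def xk (i : ℕ) : MvPowerSeries (Fin 10) k :=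
  [MvPowerSeries.X 4, MvPowerSeries.X 5, MvPowerSeries.X 6, MvPowerSeries.X 7, MvPowerSeries.X 8, MvPowerSeries.X 9,
    MvPowerSeries.X 0, MvPowerSeries.X 1, MvPowerSeries.X 2, MvPowerSeries.X 3].getD i 0

/-- the point `(u, Y, s)` of `k[[s]][[Y, u]]` -/
noncomputable def xK (i : ℕ) : MvPowerSeries (Fin 10) (PowerSeries k) :=
  [MvPowerSeries.X 4, MvPowerSeries.X 5, MvPowerSeries.X 6, MvPowerSeries.X 7, MvPowerSeries.X 8, MvPowerSeries.X 9,
    MvPowerSeries.X 0, MvPowerSeries.X 1, MvPowerSeries.X 2, MvPowerSeries.X 3, sV k].getD i 0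

theorem lift_X (j : Fin 10) : lift0 k (MvPowerSeries.X j : MvPowerSeries (Fin 10) k) = MvPowerSeries.X j := by
  unfold lift0
  exact MvPowerSeries.map_X _ j

theorem lift_xk (i : ℕ) (hi : i < 10) : lift0 k (xk k i) = xK k i := by
  interval_cases i
  all_goals exact lift_X k _

theorem lift_ptw (i : ℕ) : lift0 k (ptw (xk k) i) = ptw (xK k) i := by
  rcases lt_or_ge i 10 with h | h
  · interval_cases i
    all_goals exact lift_X k _
  · have e1 : ptw (xk k) i = 0 := List.getD_eq_default _ _ h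
    have e2 : ptw (xK k) i = 0 := List.getD_eq_default _ _ h
    rw [e1, e2, map_zero]

/-- the coefficients `c_i` -/
noncomputable def cc (i : Fin 20) : MvPowerSeries (Fin 10) k := cv (xk k) i

theorem lift_cc (i : Fin 20) : lift0 k (cc k i) = cv (xK k) i := by
  unfold cc
  rw [map_cv]
  exact cv_congr (lift_xk k) i

/-- an integer polynomial as a power series over `k` -/
noncomputable def zk : MvPolynomial (Fin 10) ℤ →+* MvPowerSeries (Fin 10) k :=
  MvPolynomial.coeToMvPowerSeries.ringHom.comp (MvPolynomial.map (algebraMap ℤ k))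

theorem zk_xT (v : ℕ) : zk k (Mond61F.xT v) = ptw (xk k) v := by
  unfold Mond61F.xT
  by_cases h : v < 6 + 4
  · rw [dif_pos h]
    have e : ∀ j : Fin 10, zk k (X j : MvPolynomial (Fin 10) ℤ) = MvPowerSeries.X j := by
      intro j
      change ((MvPolynomial.map (algebraMap ℤ k) (X j) : MvPolynomial (Fin 10) k) : MvPowerSeries (Fin 10) k) = _
      rw [map_X, coe_X]
    refine (e ⟨v, h⟩).trans ?_
    interval_cases v
    all_goals rfl
  · have e1 : ptw (xk k) v = 0 := List.getD_eq_default _ _ (by simpa using h)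
    rw [dif_neg h, e1, map_zero]

theorem zk_pvL (l : TL) : zk k (pvL Mond61F.xT l) = pvL (ptw (xk k)) l := by
  rw [pvL_map]
  congr 1
  funext v
  exact zk_xT k v

theorem lift_pvL (l : TL) : lift0 k (pvL (ptw (xk k)) l) = pvL (ptw (xK k)) l := by
  rw [pvL_map]
  congr 1
  funext v
  exact lift_ptw k v

theorem pO_pt (t : Fin 13) : pO k TA sA t = pt (xK k) t := by
  have h1 : ∀ j : Fin 4, pO k TA sA (Fin.castAdd 9 j) = MvPowerSeries.X (Fin.castLE (by omega) j) := by
    intro j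
    unfold pO
    exact Fin.append_left _ _ j
  have h2 : ∀ j : Fin 9, pO k TA sA (Fin.natAdd 4 j) = LO k TA sA j := by
    intro j
    unfold pO
    exact Fin.append_right _ _ j
  fin_cases t
  · exact h1 0
  · exact h1 1
  · exact h1 2
  · exact h1 3
  · refine (h2 0).trans ?_
    simp [LO, TA, sA, Fin.sum_univ_six, pt, xK]
  · refine (h2 1).trans ?_
    simp [LO, TA, sA, Fin.sum_univ_six, pt, xK]
  · refine (h2 2).trans ?_
    simp [LO, TA, sA, Fin.sum_univ_six, pt, xK]
  · refine (h2 3).trans ?_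
    simp [LO, TA, sA, Fin.sum_univ_six, pt, xK]
  · refine (h2 4).trans ?_
    simp [LO, TA, sA, Fin.sum_univ_six, pt, xK]
  · refine (h2 5).trans ?_
    simp [LO, TA, sA, Fin.sum_univ_six, pt, xK]
  · refine (h2 6).trans ?_
    simp [LO, TA, sA, Fin.sum_univ_six, pt, xK]
  · refine (h2 7).trans ?_
    simp [LO, TA, sA, Fin.sum_univ_six, pt, xK]
  · refine (h2 8).trans ?_
    simp [LO, TA, sA, Fin.sum_univ_six, pt, xK]

theorem pO0_pt (t : Fin 13) : pO0 k TA t = pt0 (xk k) t := by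
  have h1 : ∀ j : Fin 4, pO0 k TA (Fin.castAdd 9 j) = MvPowerSeries.X (Fin.castLE (by omega) j) := by
    intro j
    unfold pO0
    exact Fin.append_left _ _ j
  have h2 : ∀ j : Fin 9, pO0 k TA (Fin.natAdd 4 j) = LO0 k TA j := by
    intro j
    unfold pO0
    exact Fin.append_right _ _ j
  fin_cases t
  · exact h1 0
  · exact h1 1
  · exact h1 2
  · exact h1 3
  · refine (h2 0).trans ?_
    simp [LO0, TA, Fin.sum_univ_six, pt0, xk]
  · refine (h2 1).trans ?_
    simp [LO0, TA, Fin.sum_univ_six, pt0, xk]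
  · refine (h2 2).trans ?_
    simp [LO0, TA, Fin.sum_univ_six, pt0, xk]
  · refine (h2 3).trans ?_
    simp [LO0, TA, Fin.sum_univ_six, pt0, xk]
  · refine (h2 4).trans ?_
    simp [LO0, TA, Fin.sum_univ_six, pt0, xk]
  · refine (h2 5).trans ?_
    simp [LO0, TA, Fin.sum_univ_six, pt0, xk]
  · refine (h2 6).trans ?_
    simp [LO0, TA, Fin.sum_univ_six, pt0, xk]
  · refine (h2 7).trans ?_
    simp [LO0, TA, Fin.sum_univ_six, pt0, xk]
  · refine (h2 8).trans ?_
    simp [LO0, TA, Fin.sum_univ_six, pt0, xk]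

theorem aev (i : Fin 20) (t : Fin 13) : aeval (pO k TA sA) (etaP i t) = ec (xK k) i t := aeval_eta _ _ (pO_pt k) i t

theorem aev0 (i : Fin 20) : aeval (pO0 k TA) (alphaP i) = pvL (pt0 (xk k)) (aP i) - pvL (pt0 (xk k)) (aN i) :=
  aeval_al _ _ (pO0_pt k) i

/-- hypothesis `hA` of `R_cert` -/
theorem hA : ∑ i, cc k i * aeval (pO0 k TA) (alphaP i) = zk k Mond61F.WAT := by
  have h := CA (xk k)
  rw [Finset.sum_range] at h
  unfold Mond61F.WAT
  rw [map_sub, zk_pvL, zk_pvL, ← h]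
  exact Finset.sum_congr rfl fun i _ => by rw [aev0]; rfl

/-- the remainders -/
noncomputable def V0 : MvPowerSeries (Fin 10) (PowerSeries k) := VP0.ev Qs Qw 24 (xK k) - VN0.ev Qs Qw 24 (xK k)
noncomputable def V1 : MvPowerSeries (Fin 10) (PowerSeries k) := VP1.ev Qs Qw 24 (xK k) - VN1.ev Qs Qw 24 (xK k)
noncomputable def V2 : MvPowerSeries (Fin 10) (PowerSeries k) := VP2.ev Qs Qw 24 (xK k) - VN2.ev Qs Qw 24 (xK k)

/-- hypothesis `h0` of `R_cert` -/
theorem h0 : ∑ i, lift0 k (cc k i) * aeval (pO k TA sA) (etaP i (ivO 0) + etaP i (ivO 2)) =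
    sV k * lift0 k (zk k Mond61F.W0T) + sV k ^ 2 * V0 k := by
  have h := CN0 (xK k)
  rw [Finset.sum_range] at h
  unfold Mond61F.W0T
  rw [map_sub, zk_pvL, zk_pvL, map_sub, lift_pvL, lift_pvL]
  refine Eq.trans ?_ h
  exact Finset.sum_congr rfl fun i _ => by rw [lift_cc, map_add, aev, aev]; rfl

/-- hypothesis `h1` of `R_cert` -/
theorem h1 : ∑ i, lift0 k (cc k i) * aeval (pO k TA sA) (etaP i (ivO 1) + etaP i (ivO 4)) =
    sV k * lift0 k (zk k Mond61F.W1T) + sV k ^ 2 * V1 k := by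
  have h := CN1 (xK k)
  rw [Finset.sum_range] at h
  unfold Mond61F.W1T
  rw [map_sub, zk_pvL, zk_pvL, map_sub, lift_pvL, lift_pvL]
  refine Eq.trans ?_ h
  exact Finset.sum_congr rfl fun i _ => by rw [lift_cc, map_add, aev, aev]; rfl

/-- hypothesis `h2` of `R_cert` -/
theorem h2 : ∑ i, lift0 k (cc k i) * aeval (pO k TA sA) (etaP i (ivO 5) - 3 * etaP i (ivO 3) - 2 * etaP i (ivO 6)) =
    sV k * lift0 k (zk k Mond61F.W2T) + sV k ^ 2 * V2 k := by
  have h := CN2 (xK k)
  rw [Finset.sum_range] at h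
  unfold Mond61F.W2T
  rw [map_sub, zk_pvL, zk_pvL, map_sub, lift_pvL, lift_pvL]
  refine Eq.trans ?_ h
  exact Finset.sum_congr rfl fun i _ => by
    rw [lift_cc, map_sub, map_sub, map_mul, map_mul, map_ofNat, map_ofNat, aev, aev, aev]
    rfl

end

end Pool.Agent.LibMCN35
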