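import Pool.Agent.Mond61.Contract5

set_option autoImplicit false

/-! MP_ed98ad_ag, block CN (helper35): transparent lists of terms (`TL`: digits, coefficient) as PolyCert expressions, and the separation of
signs at a point where two of the variables (digits 4 and 8, that is `v1` and `v5`) are negative. -/

namespace Pool.Agent.LibMCN35

open Pool.Agent.Mond61

/-- one term as an expression; `ω i` is the weight of `σ i` -/
noncomputable def tx (ω : ℕ → ℕ) (σ : ℕ → Ex) (c : ℕ) (l : List ℕ) : Ex :=
  List.rec (motive := fun _ => Ex) (.c c) (fun i _ ih => .mul (ω i) (σ i) ih) l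

/-- a list of terms of weight `D` as an expression -/
noncomputable def lx (ω : ℕ → ℕ) (σ : ℕ → Ex) (D : ℕ) (l : List (List ℕ × ℕ)) : Ex :=
  List.rec (motive := fun _ => Ex) (.lit D 0 0 0) (fun t _ ih => .add (tx ω σ t.2 t.1) ih) l

/-- sum of a list of expressions of weight `D` -/
noncomputable def sx (D : ℕ) (l : List Ex) : Ex :=
  List.rec (motive := fun _ => Ex) (.lit D 0 0 0) (fun e _ ih => .add e ih) l

/-- parity of the number of digits 4, 8 -/
noncomputable def par (l : List ℕ) : Bool :=
  List.rec (motive := fun _ => Bool) false (fun i _ ih => Bool.rec (motive := fun _ => Bool) ih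
    (Bool.rec (motive := fun _ => Bool) true false ih) (or (Nat.beq i (nat_lit 4)) (Nat.beq i (nat_lit 8)))) l

/-- the terms of parity `b` -/
noncomputable def spl (b : Bool) (l : List (List ℕ × ℕ)) : List (List ℕ × ℕ) :=
  List.rec (motive := fun _ => List (List ℕ × ℕ)) [] (fun t _ ih => Bool.rec (motive := fun _ => List (List ℕ × ℕ))
    (Bool.rec (motive := fun _ => List (List ℕ × ℕ)) (t :: ih) ih b) (Bool.rec (motive := fun _ => List (List ℕ × ℕ)) ih (t :: ih) b) (par t.1)) l

section

variable {A : Type*} [CommSemiring A]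

theorem pvL_nil (x : ℕ → A) : pvL x [] = 0 := rfl

theorem pvL_cons (x : ℕ → A) (t : List ℕ × ℕ) (l : List (List ℕ × ℕ)) :
    pvL x (t :: l) = (t.2 : A) * (t.1.map x).prod + pvL x l := by
  unfold pvL
  rw [List.map_cons, List.sum_cons]

theorem pvL_append (x : ℕ → A) (l l' : List (List ℕ × ℕ)) : pvL x (l ++ l') = pvL x l + pvL x l' := by
  unfold pvL
  rw [List.map_append, List.sum_append]

variable (s ws : List ℕ) (cb : ℕ) (x : ℕ → A)

theorem ev_zero (D : ℕ) : (Ex.lit D 0 0 0).ev s ws cb x = 0 := by
  unfold Ex.ev Ex.mv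
  rw [Finset.range_zero, Finset.sum_empty, MvPolynomial.eval₂_zero]

theorem tx_ev (ω : ℕ → ℕ) (σ : ℕ → Ex) (c : ℕ) (l : List ℕ) :
    (tx ω σ c l).ev s ws cb x = (c : A) * (l.map fun i => (σ i).ev s ws cb x).prod := by
  induction l with
  | nil =>
    rw [List.map_nil, List.prod_nil, mul_one]
    exact Ex.ev_c s ws cb x c
  | cons i l ih =>
    rw [List.map_cons, List.prod_cons, mul_left_comm, ← ih]
    exact Ex.ev_mul s ws cb x _ _ _

theorem lx_ev (ω : ℕ → ℕ) (σ : ℕ → Ex) (D : ℕ) (l : List (List ℕ × ℕ)) :
    (lx ω σ D l).ev s ws cb x = pvL (fun i => (σ i).ev s ws cb x) l := by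
  induction l with
  | nil => exact ev_zero s ws cb x D
  | cons t l ih =>
    rw [pvL_cons, ← ih, ← tx_ev s ws cb x ω σ]
    exact Ex.ev_add s ws cb x _ _

theorem sx_ev (D : ℕ) (l : List Ex) : (sx D l).ev s ws cb x = (l.map fun e => e.ev s ws cb x).sum := by
  induction l with
  | nil => exact ev_zero s ws cb x D
  | cons t l ih =>
    rw [List.map_cons, List.sum_cons, ← ih]
    exact Ex.ev_add s ws cb x _ _

end

section

variable {A : Type*} [CommRing A] (x y : ℕ → A)

theorem prod_par (h : ∀ i, x i = if i = 4 ∨ i = 8 then - y i else y i) (l : List ℕ) :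
    (l.map x).prod = if par l then - (l.map y).prod else (l.map y).prod := by
  induction l with
  | nil => simp [par]
  | cons i l ih =>
    rw [List.map_cons, List.prod_cons, List.map_cons, List.prod_cons, ih, h i]
    have e : par (i :: l) = if (i = 4 ∨ i = 8) then ! par l else par l := by
      change (Bool.rec (motive := fun _ => Bool) (par l) (Bool.rec (motive := fun _ => Bool) true false (par l)) (or (Nat.beq i 4) (Nat.beq i 8))) = _
      by_cases h4 : i = 4 ∨ i = 8
      · have : or (Nat.beq i 4) (Nat.beq i 8) = true := by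
          rcases h4 with rfl | rfl <;> rfl
        rw [this, if_pos h4]
        cases par l <;> rfl
      · have : or (Nat.beq i 4) (Nat.beq i 8) = false := by
          rw [not_or] at h4
          rw [Bool.or_eq_false_iff]
          exact ⟨by rw [Bool.eq_false_iff]; intro hh; exact h4.1 (Nat.eq_of_beq_eq_true hh),
            by rw [Bool.eq_false_iff]; intro hh; exact h4.2 (Nat.eq_of_beq_eq_true hh)⟩
        rw [this, if_neg h4]
    rw [e]
    by_cases h4 : i = 4 ∨ i = 8
    · rw [if_pos h4, if_pos h4]
      cases par l <;> simp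
    · rw [if_neg h4, if_neg h4]
      cases par l <;> simp

theorem pvL_spl (h : ∀ i, x i = if i = 4 ∨ i = 8 then - y i else y i) (l : List (List ℕ × ℕ)) :
    pvL x l = pvL y (spl false l) - pvL y (spl true l) := by
  induction l with
  | nil => change (0 : A) = 0 - 0; ring
  | cons t l ih =>
    rw [pvL_cons, prod_par x y h, ih]
    have e0 : spl false (t :: l) = if par t.1 then spl false l else t :: spl false l := by
      change (Bool.rec (motive := fun _ => List (List ℕ × ℕ)) _ _ (par t.1)) = _
      cases par t.1 <;> rfl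
    have e1 : spl true (t :: l) = if par t.1 then t :: spl true l else spl true l := by
      change (Bool.rec (motive := fun _ => List (List ℕ × ℕ)) _ _ (par t.1)) = _
      cases par t.1 <;> rfl
    rw [e0, e1]
    cases par t.1
    · rw [if_neg (by simp), if_neg (by simp), if_neg (by simp), pvL_cons]
      ring
    · rw [if_pos rfl, if_pos rfl, if_pos rfl, pvL_cons]
      ring

end

end Pool.Agent.LibMCN35
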